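import Pool.Agent.H90.DE.Cert
import Pool.Agent.H90.DE.Root
import Pool.Agent.H90.DE.Small

/-!
# The walk from a certificate, `e` prime (MP_2f0703_co)
-/

set_option autoImplicit false

namespace Pool.Agent.H62.GE

open Finset Pool.Agent.H90.DE

theorem Dat.powc {F : Type} [Field F] [Fintype F] {a : F} {e N : ℕ} {c : F → ZMod e} {θ : MulChar F ℂ}
    (D : Dat F a e N c θ) {s : ℕ} (hs : Nat.Coprime s (e * N)) :
    Dat F (a ^ s) e N (fun x => (s : ZMod e)⁻¹ * c x) θ := by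
  have hpos : 0 < e * N := Nat.mul_pos D.he D.hN0
  have haN : a ^ (e * N) = 1 := (D.ha1 _).2 (dvd_refl _)
  have hse : Nat.Coprime s e := Nat.Coprime.coprime_mul_right_right hs
  have hsu : (s : ZMod e)⁻¹ * (s : ZMod e) = 1 := by
    rw [mul_comm]
    exact ZMod.coe_mul_inv_eq_one s hse
  refine ⟨pow_ne_zero _ D.ha0, ?_, ?_, D.he, D.hN0, D.hN, ?_, ?_⟩
  · intro x hx
    obtain ⟨t, ht⟩ := D.ha x hx
    obtain ⟨r, hr0, hr1⟩ := Nat.chineseRemainder hs 0 1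
    obtain ⟨r', rfl⟩ := (Nat.modEq_zero_iff_dvd).1 hr0
    refine ⟨r' * t, ?_⟩
    rw [ht, ← pow_mul]
    apply pow_eq_pow_of_modEq _ haN
    have h1 : s * (r' * t) = (s * r') * t := by ring
    rw [h1]
    have h2 : (s * r') * t ≡ 1 * t [MOD (e * N)] := Nat.ModEq.mul_right _ hr1
    rw [one_mul] at h2
    exact h2.symm
  · intro n
    show (s : ZMod e)⁻¹ * c ((a ^ s) ^ n) = n
    rw [← pow_mul, D.hc]
    push_cast
    rw [← mul_assoc, hsu, one_mul]
  · intro n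
    rw [← pow_mul, D.ha1]
    exact ⟨fun h => (Nat.Coprime.dvd_of_dvd_mul_left hs.symm h), fun h => Dvd.dvd.mul_left h s⟩
  · intro n
    rw [map_pow, ← pow_mul, D.hθ]
    exact ⟨fun h => (Nat.Coprime.dvd_of_dvd_mul_left hs.symm h), fun h => Dvd.dvd.mul_left h s⟩

theorem certE (F : Type) [Field F] [Fintype F] [CharP F 2] {e N : ℕ} (hep : e.Prime) (he3 : 3 ≤ e) [NeZero e]
    (hN : e * N = Fintype.card F - 1) (x y : F)
    (hx0 : x ≠ 0) (hxN : x ^ N ≠ 1) (hy : y ^ N = x ^ N) (hx1 : x + 1 ≠ 0) (h1 : (x + 1) ^ N = (y + 1) ^ N)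
    (h2 : (x * y + 1) ^ N = ((x + 1) ^ N) ^ 2) (hxy : x ≠ y) (hp : ∀ p : ℕ, p.Prime → p ∣ N → (x ^ (e - 1) * y) ^ (N / p) ≠ 1) :
    ∃ (a : F) (c : F → ZMod e) (b : ZMod e → F) (γ δ : ZMod e) (E : ℕ), GW F a e c b γ δ ∧ ∏ i, b i = a ^ E ∧
      (∀ M : ℕ, e ∣ M → ∃ k : ℕ, (a ^ E) ^ k = a ^ M) ∧
      ¬ ∀ i : ZMod e, b (i + γ) * (1 + b i) = b i * (1 + b (i + 1)) := by
  have two : (2 : F) = 0 := by
    have := CharP.cast_eq_zero F 2
    exact_mod_cast this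
  obtain ⟨a0, c0, θ, D0⟩ := exists_dat F (e := e) (N := N) (by omega) hN
  obtain ⟨m, hm⟩ := D0.ha x hx0
  have hN0 := D0.hN0
  have hpos : 0 < e * N := Nat.mul_pos D0.he hN0
  haveI : NeZero (e * N) := ⟨hpos.ne'⟩
  have hme : Nat.Coprime m e := by
    rw [Nat.coprime_comm, Nat.Prime.coprime_iff_not_dvd hep]
    intro hd
    apply hxN
    rw [hm, ← pow_mul, D0.ha1]
    exact Nat.mul_dvd_mul_right hd N
  obtain ⟨u, hu⟩ := ZMod.unitsMap_surjective (n := e) (m := e * N) (Dvd.intro N rfl) (ZMod.unitOfCoprime m hme)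
  set s : ℕ := (u : ZMod (e * N)).val with hs
  have hscop : Nat.Coprime s (e * N) := ZMod.val_coe_unit_coprime u
  have hsm : (s : ZMod e) = m := by
    have h3 := congrArg Units.val hu
    rw [ZMod.unitsMap_val, ZMod.coe_unitOfCoprime] at h3
    rw [hs, ← h3]
    exact ZMod.natCast_val _
  have D := Dat.powc D0 hscop
  set a := a0 ^ s with ha
  set c : F → ZMod e := fun x => (s : ZMod e)⁻¹ * c0 x with hc
  have hcx : c x = 1 := by
    show (s : ZMod e)⁻¹ * c0 x = 1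
    rw [hm, D0.hc, ← hsm, mul_comm]
    exact ZMod.coe_mul_inv_eq_one s (Nat.Coprime.coprime_mul_right_right hscop)
  clear_value a c
  have hgen : ∀ i j : ℕ, i ≤ j → a ^ (i * N) = a ^ (j * N) → (i : ZMod e) = j := by
    intro i j hst h
    have h3 : a ^ ((j - i) * N) = 1 := by
      have h4 : a ^ (i * N) * a ^ ((j - i) * N) = a ^ (i * N) * 1 := by
        rw [← pow_add, ← add_mul, Nat.add_sub_cancel' hst, mul_one, h]
      exact mul_left_cancel₀ (pow_ne_zero _ D.ha0) h4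
    have h5 := (D.ha1 _).1 h3
    have h6 : e ∣ j - i := Nat.dvd_of_mul_dvd_mul_right hN0 h5
    have h7 := (ZMod.natCast_eq_zero_iff (j - i) e).2 h6
    rw [Nat.cast_sub hst] at h7
    exact (sub_eq_zero.1 h7).symm
  have hcl : ∀ z w : F, z ≠ 0 → w ≠ 0 → z ^ N = w ^ N → c z = c w := by
    intro z w hz hw hzw
    obtain ⟨i, hi⟩ := D.ha z hz
    obtain ⟨j, hj⟩ := D.ha w hw
    rw [hi, hj, D.hc, D.hc]
    rw [hi, hj, ← pow_mul, ← pow_mul] at hzw
    rcases le_total i j with h | h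
    · exact hgen i j h hzw
    · exact (hgen j i h hzw.symm).symm
  have hy0 : y ≠ 0 := by
    rintro rfl
    rw [zero_pow (by omega)] at hy
    exact pow_ne_zero _ hx0 hy.symm
  have hy1 : y + 1 ≠ 0 := by
    intro h
    rw [h, zero_pow (by omega)] at h1
    exact pow_ne_zero _ hx1 h1
  have hxy1 : x * y + 1 ≠ 0 := by
    intro h
    rw [h, zero_pow (by omega)] at h2
    exact pow_ne_zero _ (pow_ne_zero _ hx1) h2.symm
  have hcy : c y = 1 := by rw [hcl y x hy0 hx0 hy, hcx]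
  have hcpow : ∀ n : ℕ, c (x ^ n) = n := by
    intro n
    induction n with
    | zero =>
      have := D.hc 0
      rw [pow_zero] at this ⊢
      exact this
    | succ n ih => rw [pow_succ, D.c_mul (pow_ne_zero _ hx0) hx0, ih, hcx, Nat.cast_succ]
  refine D.gw two he3 (γ := c (x + 1)) (x := x) (y := y) (mem_setA.2 ⟨hx0, hcx, hx1, rfl⟩)
    (mem_setA.2 ⟨hy0, hcy, hy1, hcl _ _ hy1 hx1 h1.symm⟩) hxy ?_ ?_
  · rw [hcl (x * y + 1) ((x + 1) * (x + 1)) hxy1 (mul_ne_zero hx1 hx1) (by rw [h2, mul_pow]; ring), D.c_mul hx1 hx1]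
    ring
  · intro S hS
    have hcS : (S : ZMod e) = 0 := by
      rw [← D.hc, ← hS, D.c_mul (pow_ne_zero _ hx0) hy0, hcpow, hcy]
      have h1 : ((e - 1 : ℕ) : ZMod e) + 1 = ((e - 1 + 1 : ℕ) : ZMod e) := by push_cast; ring
      rw [h1, Nat.sub_add_cancel (by omega), ZMod.natCast_self]
    obtain ⟨S', rfl⟩ := (ZMod.natCast_eq_zero_iff _ _).1 hcS
    rw [Nat.mul_div_cancel_left _ (by omega)]
    by_contra hco
    obtain ⟨p, hpp, hpS, hpN⟩ := Nat.Prime.not_coprime_iff_dvd.1 hco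
    apply hp p hpp hpN
    rw [hS, ← pow_mul, D.ha1]
    obtain ⟨u', hu'⟩ := hpS
    obtain ⟨v', hv'⟩ := hpN
    rw [hv', Nat.mul_div_cancel_left _ hpp.pos, hu']
    exact ⟨u', by ring⟩

end Pool.Agent.H62.GE
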