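import Mathlib

/-!
# Primality by trial division and by Lucas (for certificates)
-/

set_option autoImplicit false

namespace Pool.Agent.H62.GE

/-- no `d + 2 j`, `j < 2 ^ k`, divides `n` -/
def tdiv (n : ℕ) : ℕ → ℕ → Bool
  | 0, d => Nat.ble 1 (n % d)
  | k + 1, d => tdiv n k d && tdiv n k (d + 2 * 2 ^ k)

theorem tdiv_spec (n : ℕ) : ∀ k d : ℕ, tdiv n k d = true → ∀ j < 2 ^ k, ¬ (d + 2 * j) ∣ n := by
  intro k
  induction k with
  | zero =>
    intro d h j hj hd
    have h0 : j = 0 := by simpa using hj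
    subst h0
    have h1 : 1 ≤ n % d := Nat.le_of_ble_eq_true h
    have h2 : n % d = 0 := Nat.mod_eq_zero_of_dvd (by simpa using hd)
    omega
  | succ k ih =>
    intro d h j hj
    have h' : (tdiv n k d && tdiv n k (d + 2 * 2 ^ k)) = true := h
    rw [Bool.and_eq_true] at h'
    rcases Nat.lt_or_ge j (2 ^ k) with h1 | h1
    · exact ih d h'.1 j h1
    · have h2 := ih (d + 2 * 2 ^ k) h'.2 (j - 2 ^ k) (by rw [pow_succ] at hj; omega)
      rwa [show d + 2 * 2 ^ k + 2 * (j - 2 ^ k) = d + 2 * j by omega] at h2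

theorem prime_of_tdiv {n k : ℕ} (h : tdiv n k 3 = true) (hn : 2 ≤ n) (h2 : n % 2 = 1) (hk : n < (3 + 2 * 2 ^ k) * (3 + 2 * 2 ^ k)) :
    n.Prime := by
  by_contra hp
  have h1 : n.minFac ^ 2 ≤ n := Nat.minFac_sq_le_self (by omega) hp
  have h3 : n.minFac.Prime := Nat.minFac_prime (by omega)
  have h4 : n.minFac ∣ n := Nat.minFac_dvd n
  have h5 : n.minFac % 2 = 1 := by
    rcases h3.eq_two_or_odd with h | h
    · rw [h] at h4
      omega
    · exact h
  have h6 : 3 ≤ n.minFac := by
    have := h3.two_le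
    omega
  have h7 : n.minFac < 3 + 2 * 2 ^ k := by
    by_contra h8
    have h9 : 3 + 2 * 2 ^ k ≤ n.minFac := by omega
    have := Nat.mul_le_mul h9 h9
    rw [pow_two] at h1
    omega
  apply tdiv_spec n k 3 h ((n.minFac - 3) / 2) (by omega)
  rwa [show 3 + 2 * ((n.minFac - 3) / 2) = n.minFac by omega]

/-- `a ^ n % m`, `n < 2 ^ k` -/
def pmod (m : ℕ) : ℕ → ℕ → ℕ → ℕ
  | 0, _, _ => 1 % m
  | k + 1, a, n => (a ^ (n % 2) * pmod m k (a * a % m) (n / 2)) % m

theorem pmod_spec (m : ℕ) : ∀ k a n : ℕ, n < 2 ^ k → pmod m k a n = a ^ n % m := by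
  intro k
  induction k with
  | zero =>
    intro a n h
    have h0 : n = 0 := by simpa using h
    subst h0
    rw [pow_zero]
    rfl
  | succ k ih =>
    intro a n h
    show (a ^ (n % 2) * pmod m k (a * a % m) (n / 2)) % m = a ^ n % m
    rw [ih _ _ (by rw [pow_succ] at h; omega)]
    have h1 : (a * a % m) ^ (n / 2) ≡ (a * a) ^ (n / 2) [MOD m] := (Nat.mod_modEq _ _).pow _
    have h2 : (a * a % m) ^ (n / 2) % m ≡ (a * a) ^ (n / 2) [MOD m] := (Nat.mod_modEq _ _).trans h1
    have h3 := h2.mul_left (a ^ (n % 2))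
    have h4 : a ^ (n % 2) * (a * a) ^ (n / 2) = a ^ n := by
      rw [← pow_two, ← pow_mul, ← pow_add, Nat.mod_add_div]
    rw [h4] at h3
    exact h3

theorem zp (a n p : ℕ) : (((a : ℕ) : ZMod p) ^ n = 1) ↔ a ^ n % p = 1 % p := by
  rw [← ZMod.natCast_eq_natCast_iff' (a ^ n) 1 p]
  push_cast
  rfl

theorem p8060489 : Nat.Prime 8060489 := prime_of_tdiv (k := 11) (by decide +kernel) (by norm_num) (by norm_num) (by norm_num)

theorem p616318177 : Nat.Prime 616318177 := prime_of_tdiv (k := 14) (by decide +kernel) (by norm_num) (by norm_num) (by norm_num)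

theorem p164511353 : Nat.Prime 164511353 := prime_of_tdiv (k := 13) (by decide +kernel) (by norm_num) (by norm_num) (by norm_num)

theorem p13264529 : Nat.Prime 13264529 := prime_of_tdiv (k := 11) (by decide +kernel) (by norm_num) (by norm_num) (by norm_num)

theorem p20394401 : Nat.Prime 20394401 := prime_of_tdiv (k := 12) (by decide +kernel) (by norm_num) (by norm_num) (by norm_num)

theorem p2099863 : Nat.Prime 2099863 := prime_of_tdiv (k := 10) (by decide +kernel) (by norm_num) (by norm_num) (by norm_num)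

theorem p3203431780337 : Nat.Prime 3203431780337 := by
  have h : ∀ q : ℕ, q.Prime → q ∣ 3203431780337 - 1 → q = 2 ∨ q = 59 ∨ q = 421 ∨ q = 8060489 := by
    intro q hq hd
    have e : 3203431780337 - 1 = 2 * (2 * (2 * (2 * (59 * (421 * 8060489))))) := by norm_num
    rw [e] at hd
    rcases (hq.dvd_mul).1 hd with hd | hd
    · left; exact (Nat.prime_dvd_prime_iff_eq hq Nat.prime_two).1 hd
    rcases (hq.dvd_mul).1 hd with hd | hd
    · left; exact (Nat.prime_dvd_prime_iff_eq hq Nat.prime_two).1 hd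
    rcases (hq.dvd_mul).1 hd with hd | hd
    · left; exact (Nat.prime_dvd_prime_iff_eq hq Nat.prime_two).1 hd
    rcases (hq.dvd_mul).1 hd with hd | hd
    · left; exact (Nat.prime_dvd_prime_iff_eq hq Nat.prime_two).1 hd
    rcases (hq.dvd_mul).1 hd with hd | hd
    · right; left; exact (Nat.prime_dvd_prime_iff_eq hq (by norm_num)).1 hd
    rcases (hq.dvd_mul).1 hd with hd | hd
    · right; right; left; exact (Nat.prime_dvd_prime_iff_eq hq (by norm_num)).1 hd
    · right; right; right; exact (Nat.prime_dvd_prime_iff_eq hq p8060489).1 hd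
  have key : ∀ n r : ℕ, n < 2 ^ 42 → pmod 3203431780337 42 3 n = r → 3 ^ n % 3203431780337 = r := by
    intro n r hn hr
    rw [← hr, pmod_spec _ _ _ _ hn]
  refine lucas_primality _ ((3 : ℕ) : ZMod 3203431780337) ?_ ?_
  · rw [zp]
    rw [key (3203431780337 - 1) 1 (by norm_num) (by decide +kernel)]
  · intro q hq hd
    rcases h q hq hd with rfl | rfl | rfl | rfl
    · rw [Ne, zp, pmod_spec 3203431780337 42 3 ((3203431780337 - 1) / 2) (by norm_num) |>.symm]
      decide +kernel
    · rw [Ne, zp, pmod_spec 3203431780337 42 3 ((3203431780337 - 1) / 59) (by norm_num) |>.symm]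
      decide +kernel
    · rw [Ne, zp, pmod_spec 3203431780337 42 3 ((3203431780337 - 1) / 421) (by norm_num) |>.symm]
      decide +kernel
    · rw [Ne, zp, pmod_spec 3203431780337 42 3 ((3203431780337 - 1) / 8060489) (by norm_num) |>.symm]
      decide +kernel

end Pool.Agent.H62.GE
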