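import Pool.Agent.H62.GE.Chk
import Pool.Agent.H62.GE.Pr

/-!
# Certificates for prime exponents (MP_2f0703_co)
-/

set_option autoImplicit false

namespace Pool.Agent.H62.GE

open Finset Pool.Agent.H90.DE

theorem c11 : chkE 11 2053 23 89 557 721 [89] = true := by decide +kernel

theorem good11 : Good 11 :=
  good_chkE c11 (by norm_num) (ps_one (by norm_num)) (by norm_num) (by norm_num)

theorem c23 : chkE 23 8388641 47 178481 11734 44563 [178481] = true := by decide +kernel

theorem good23 : Good 23 :=
  good_chkE c23 (by norm_num) (ps_one (by norm_num)) (by norm_num) (by norm_num)

theorem c29 : chkE 29 536870917 233 2304167 312704695 47144600 [1103, 2089] = true := by decide +kernel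

theorem good29 : Good 29 :=
  good_chkE c29 (by norm_num) (by
    have h := ps_two (q := 1103) (r := 2089) (by norm_num) (by norm_num)
    simpa using h) (by norm_num) (by norm_num)

theorem c37 : chkE 37 137438953555 223 616318177 24643996179 120582011884 [616318177] = true := by decide +kernel

theorem good37 : Good 37 :=
  good_chkE c37 (by norm_num) (ps_one p616318177) (by norm_num) (by norm_num)

theorem c41 : chkE 41 2199023255561 13367 164511353 1782903306558 40773429098 [164511353] = true := by decide +kernel

theorem good41 : Good 41 :=
  good_chkE c41 (by norm_num) (ps_one p164511353) (by norm_num) (by norm_num)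

theorem c43 : chkE 43 8796093022297 431 20408568497 6217899545958 7098413574281 [9719, 2099863] = true := by decide +kernel

theorem good43 : Good 43 :=
  good_chkE c43 (by norm_num) (by
    have h := ps_two (q := 9719) (r := 2099863) (by norm_num) p2099863
    simpa using h) (by norm_num) (by norm_num)

theorem c47 : chkE 47 140737488355361 2351 59862819377 37321394808054 89671613052408 [4513, 13264529] = true := by decide +kernel

theorem good47 : Good 47 :=
  good_chkE c47 (by norm_num) (by
    have h := ps_two (q := 4513) (r := 13264529) (by norm_num) p13264529
    simpa using h) (by norm_num) (by norm_num)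

theorem c53 : chkE 53 9007199254741063 6361 1416003655831 3327769363255716 8225211385403107 [69431, 20394401] = true := by decide +kernel

theorem good53 : Good 53 :=
  good_chkE c53 (by norm_num) (by
    have h := ps_two (q := 69431) (r := 20394401) (by norm_num) p20394401
    simpa using h) (by norm_num) (by norm_num)

theorem c59 : chkE 59 576460752303423637 179951 3203431780337 440439193854356284 453627709327749177 [3203431780337] = true := by decide +kernel

theorem good59 : Good 59 :=
  good_chkE c59 (by norm_num) (ps_one p3203431780337) (by norm_num) (by norm_num)

end Pool.Agent.H62.GE
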